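import Pool.Agent.H629.TA.Stm

set_option autoImplicit false

open Finset

namespace Pool.Agent.H671.TA.P3

open Pool.Agent.H629.TA

theorem draw_sum {m : ℕ} (s : Finset ℕ) (p : ℕ → ℝ) {ι : Type} (t : Finset ι)
    (F : ι → (Fin m → ℕ) → ℝ) :
    draw m s p (fun j => ∑ a ∈ t, F a j) = ∑ a ∈ t, draw m s p (F a) := by
  unfold draw
  simp only [mul_sum]
  rw [sum_comm]

theorem cnt_le {m : ℕ} (j : Fin m → ℕ) (a : ℕ) : (cnt j a : ℝ) ≤ m := by
  have h : cnt j a ≤ m := by
    unfold cnt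
    exact (card_filter_le _ _).trans (by simp)
  exact_mod_cast h

theorem cnt2 {m : ℕ} (j : Fin m → ℕ) (a : ℕ) : 0 ≤ (cnt j a : ℝ) * ((cnt j a : ℝ) - 1) := by
  rcases Nat.eq_zero_or_pos (cnt j a) with h | h
  · rw [h]; simp
  · have h1 : (1 : ℝ) ≤ (cnt j a : ℝ) := by exact_mod_cast h
    exact mul_nonneg (by positivity) (by linarith)

theorem natK (M : ℕ) : 0 ≤ (M : ℝ) * ((M : ℝ) - 1) := by
  rcases Nat.eq_zero_or_pos M with h | h
  · rw [h]; simp
  · have h1 : (1 : ℝ) ≤ (M : ℝ) := by exact_mod_cast h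
    exact mul_nonneg (by positivity) (by linarith)

theorem mult_self (m : ℕ) (h : Hist m) (a : ℕ) : mult m h a a = 0 := by
  unfold mult
  rw [if_pos rfl]

theorem t_P3 : S_DR → S_CT → S_ON → S_NW → S_TW → S_SR → S_P3 := by
  intro hDR hCT hON hNW hTW _ m δ hm hδ
  have hm0 : (0 : ℝ) ≤ m := Nat.cast_nonneg m
  have hm2 : (2 : ℝ) ≤ m := by exact_mod_cast hm
  set c3 : ℝ := ((m : ℝ) + δ) * (m + δ + 1) * (m + δ + 2) with hc3
  set cV : ℝ := 8 * m * (((m : ℝ) + δ) * (m + δ + 1)) with hcV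
  set cQ : ℝ := 4 * (m + δ) * (m * ((m : ℝ) - 1)) with hcQ
  have p3 : 0 ≤ c3 := by positivity
  have pV : 0 ≤ cV := by positivity
  have pQ : 0 ≤ cQ := by
    have : (0 : ℝ) ≤ (m : ℝ) - 1 := by linarith
    positivity
  refine ⟨c3 + cV + cQ, by positivity, ?_⟩
  intro k h hk hv
  obtain ⟨-, hwt, hdeg⟩ := hTW m k h hk hv
  set s := Icc 1 k with hs
  set L := tot m δ k with hL
  have hx : ∀ a ∈ s, (m : ℝ) + δ ≤ wt m δ h k a := by
    intro a ha
    unfold wt
    have h1 : (m : ℝ) ≤ (deg m h k a : ℝ) := by exact_mod_cast hdeg a ha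
    linarith
  have hx0 : ∀ a ∈ s, 0 < wt m δ h k a := fun a ha => lt_of_lt_of_le (by linarith) (hx a ha)
  have hxs : ∑ a ∈ s, wt m δ h k a = L := hwt δ
  have hLp : 0 < L := by
    rw [← hxs]
    exact sum_pos hx0 ⟨1, by rw [hs, mem_Icc]; omega⟩
  have hp : ∀ a ∈ s, 0 ≤ wt m δ h k a / L := fun a ha => div_nonneg (hx0 a ha).le hLp.le
  have hp1 : ∑ a ∈ s, wt m δ h k a / L = 1 := by
    rw [← sum_div, hxs, div_self hLp.ne']
  obtain ⟨dr1, dr2, dr3, dr4, dr5, -⟩ := hDR m s (fun a => wt m δ h k a / L)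
  obtain ⟨ct1, -, -, ct4⟩ := hCT m s (fun a => wt m δ h k a / L) hp1
  obtain ⟨on3, onK⟩ := hON m s (fun a => wt m δ h k a) L hx0 hLp hxs
  -- the third moment and its relatives
  have S3pos : 0 ≤ S3 m δ k h := by
    unfold S3
    refine sum_nonneg fun a ha => ?_
    have := hx0 a ha
    positivity
  refine ⟨?_, ?_, ?_⟩
  · -- S3
    have e1 : step m δ k (S3 m δ (k + 1)) h = draw m s (fun a => wt m δ h k a / L)
        (fun j => (∑ a ∈ s, (wt m δ h k a + (cnt j a : ℝ)) * (wt m δ h k a + (cnt j a : ℝ) + 1) *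
          (wt m δ h k a + (cnt j a : ℝ) + 2)) + c3) := by
      unfold step
      exact dr5 _ _ fun j hj => (hNW m k δ h j hk hj).2.1
    rw [e1, dr2, dr1 c3 hp1]
    have h3 : S3 m δ k h = ∑ a ∈ s, wt m δ h k a * (wt m δ h k a + 1) * (wt m δ h k a + 2) := rfl
    rw [h3]
    linarith [on3]
  · -- VV
    have e1 : step m δ k (VV m δ (k + 1)) h = draw m s (fun a => wt m δ h k a / L)
        (fun j => (∑ a ∈ s, ∑ b ∈ s, (mult m h a b : ℝ) *
        (((wt m δ h k a + (cnt j a : ℝ)) * (wt m δ h k a + (cnt j a : ℝ) + 1)) *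
          ((wt m δ h k b + (cnt j b : ℝ)) * (wt m δ h k b + (cnt j b : ℝ) + 1)))) +
        2 * ((m + δ) * (m + δ + 1)) * ∑ a ∈ s, (cnt j a : ℝ) *
        ((wt m δ h k a + (cnt j a : ℝ)) * (wt m δ h k a + (cnt j a : ℝ) + 1))) := by
      unfold step
      exact dr5 _ _ fun j hj => (hNW m k δ h j hk hj).2.2.2.1
    have e2 := (onK (fun a b => (mult m h a b : ℝ)) (fun a b => Nat.cast_nonneg _)
      (fun a => by rw [mult_self]; simp)).1
    have e3 : draw m s (fun a => wt m δ h k a / L) (fun j => ∑ a ∈ s, (cnt j a : ℝ) *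
        ((wt m δ h k a + (cnt j a : ℝ)) * (wt m δ h k a + (cnt j a : ℝ) + 1))) ≤
        4 * m * (S3 m δ k h / L) := by
      have e4 : draw m s (fun a => wt m δ h k a / L) (fun j => ∑ a ∈ s, (cnt j a : ℝ) *
          ((wt m δ h k a + (cnt j a : ℝ)) * (wt m δ h k a + (cnt j a : ℝ) + 1))) ≤
          draw m s (fun a => wt m δ h k a / L) (fun j => ∑ a ∈ s,
          (4 * (wt m δ h k a * (wt m δ h k a + 1))) * (cnt j a : ℝ)) := by
        refine dr4 _ _ hp fun j _ => sum_le_sum fun a ha => ?_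
        have c0 : (0 : ℝ) ≤ (cnt j a : ℝ) := Nat.cast_nonneg _
        have c1 := cnt_le j a
        have x1 := hx a ha
        have x2 : (cnt j a : ℝ) ≤ wt m δ h k a := by linarith
        have x0 := hx0 a ha
        have h5 : (wt m δ h k a + (cnt j a : ℝ)) * (wt m δ h k a + (cnt j a : ℝ) + 1) ≤
            4 * (wt m δ h k a * (wt m δ h k a + 1)) := by nlinarith
        calc (cnt j a : ℝ) * ((wt m δ h k a + (cnt j a : ℝ)) * (wt m δ h k a + (cnt j a : ℝ) + 1))
            ≤ (cnt j a : ℝ) * (4 * (wt m δ h k a * (wt m δ h k a + 1))) :=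
              mul_le_mul_of_nonneg_left h5 c0
          _ = _ := by ring
      refine e4.trans ?_
      rw [draw_sum]
      have e5 : ∀ a ∈ s, draw m s (fun a => wt m δ h k a / L)
          (fun j => (4 * (wt m δ h k a * (wt m δ h k a + 1))) * (cnt j a : ℝ)) =
          (4 * (wt m δ h k a * (wt m δ h k a + 1))) * (m * (wt m δ h k a / L)) := by
        intro a ha
        rw [dr3, ct1 a ha]
      rw [sum_congr rfl e5]
      unfold S3
      rw [sum_div, mul_sum]
      refine sum_le_sum fun a ha => ?_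
      have x0 := hx0 a ha
      have h6 : (wt m δ h k a * (wt m δ h k a + 1)) * wt m δ h k a ≤
          wt m δ h k a * (wt m δ h k a + 1) * (wt m δ h k a + 2) :=
        mul_le_mul_of_nonneg_left (by linarith) (by positivity)
      calc (4 * (wt m δ h k a * (wt m δ h k a + 1))) * (m * (wt m δ h k a / L))
          = 4 * m * (((wt m δ h k a * (wt m δ h k a + 1)) * wt m δ h k a) / L) := by ring
        _ ≤ _ := mul_le_mul_of_nonneg_left (div_le_div_of_nonneg_right h6 hLp.le) (by positivity)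
    rw [e1, dr2, dr3]
    have e7 : 2 * (((m : ℝ) + δ) * (m + δ + 1)) * (4 * m * (S3 m δ k h / L)) =
        cV * (S3 m δ k h / L) := by rw [hcV]; ring
    have e8 := mul_le_mul_of_nonneg_left e3 (show 0 ≤ 2 * (((m : ℝ) + δ) * (m + δ + 1)) by positivity)
    rw [e7] at e8
    have e9 : cV * (S3 m δ k h / L) ≤ (c3 + cV + cQ) * (S3 m δ k h / L) :=
      mul_le_mul_of_nonneg_right (by linarith) (div_nonneg S3pos hLp.le)
    have hVV : VV m δ k h = ∑ a ∈ s, ∑ b ∈ s, (mult m h a b : ℝ) *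
      ((wt m δ h k a * (wt m δ h k a + 1)) * (wt m δ h k b * (wt m δ h k b + 1))) := rfl
    rw [hVV]
    linarith [e2]
  · -- QQ
    have e1 : step m δ k (QQ m δ (k + 1)) h = draw m s (fun a => wt m δ h k a / L)
        (fun j => (∑ a ∈ s, ∑ b ∈ s, ((mult m h a b : ℝ) * ((mult m h a b : ℝ) - 1)) *
        ((wt m δ h k a + (cnt j a : ℝ)) * (wt m δ h k b + (cnt j b : ℝ)))) +
        2 * (m + δ) * ∑ a ∈ s, ((cnt j a : ℝ) * ((cnt j a : ℝ) - 1)) *
        (wt m δ h k a + (cnt j a : ℝ))) := by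
      unfold step
      exact dr5 _ _ fun j hj => (hNW m k δ h j hk hj).2.2.2.2
    have e2 := (onK (fun a b => (mult m h a b : ℝ) * ((mult m h a b : ℝ) - 1))
      (fun a b => natK _) (fun a => by rw [mult_self]; simp)).2
    have e3 : draw m s (fun a => wt m δ h k a / L) (fun j => ∑ a ∈ s,
        ((cnt j a : ℝ) * ((cnt j a : ℝ) - 1)) * (wt m δ h k a + (cnt j a : ℝ))) ≤
        2 * (m * ((m : ℝ) - 1)) * (S3 m δ k h / L ^ 2) := by
      have e4 : draw m s (fun a => wt m δ h k a / L) (fun j => ∑ a ∈ s,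
          ((cnt j a : ℝ) * ((cnt j a : ℝ) - 1)) * (wt m δ h k a + (cnt j a : ℝ))) ≤
          draw m s (fun a => wt m δ h k a / L) (fun j => ∑ a ∈ s,
          (2 * wt m δ h k a) * ((cnt j a : ℝ) * ((cnt j a : ℝ) - 1))) := by
        refine dr4 _ _ hp fun j _ => sum_le_sum fun a ha => ?_
        have c0 := cnt2 j a
        have c1 := cnt_le j a
        have x1 := hx a ha
        have h5 : wt m δ h k a + (cnt j a : ℝ) ≤ 2 * wt m δ h k a := by linarith
        calc ((cnt j a : ℝ) * ((cnt j a : ℝ) - 1)) * (wt m δ h k a + (cnt j a : ℝ))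
            ≤ ((cnt j a : ℝ) * ((cnt j a : ℝ) - 1)) * (2 * wt m δ h k a) :=
              mul_le_mul_of_nonneg_left h5 c0
          _ = _ := by ring
      refine e4.trans ?_
      rw [draw_sum]
      have e5 : ∀ a ∈ s, draw m s (fun a => wt m δ h k a / L)
          (fun j => (2 * wt m δ h k a) * ((cnt j a : ℝ) * ((cnt j a : ℝ) - 1))) =
          (2 * wt m δ h k a) * (m * ((m : ℝ) - 1) * (wt m δ h k a / L) ^ 2) := by
        intro a ha
        rw [dr3, ct4 a ha]
      rw [sum_congr rfl e5]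
      unfold S3
      rw [sum_div, mul_sum]
      refine sum_le_sum fun a ha => ?_
      have x0 := hx0 a ha
      have h6 : wt m δ h k a ^ 3 ≤
          wt m δ h k a * (wt m δ h k a + 1) * (wt m δ h k a + 2) := by nlinarith [sq_nonneg (wt m δ h k a)]
      have hmm : (0 : ℝ) ≤ 2 * (m * ((m : ℝ) - 1)) := by
        have : (0 : ℝ) ≤ (m : ℝ) - 1 := by linarith
        positivity
      calc (2 * wt m δ h k a) * (m * ((m : ℝ) - 1) * (wt m δ h k a / L) ^ 2)
          = 2 * (m * ((m : ℝ) - 1)) * (wt m δ h k a ^ 3 / L ^ 2) := by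
            rw [div_pow]; ring
        _ ≤ _ := mul_le_mul_of_nonneg_left (div_le_div_of_nonneg_right h6 (by positivity)) hmm
    rw [e1, dr2, dr3]
    have e7 : 2 * ((m : ℝ) + δ) * (2 * (m * ((m : ℝ) - 1)) * (S3 m δ k h / L ^ 2)) =
        cQ * (S3 m δ k h / L ^ 2) := by rw [hcQ]; ring
    have e8 := mul_le_mul_of_nonneg_left e3 (show 0 ≤ 2 * ((m : ℝ) + δ) by positivity)
    rw [e7] at e8
    have e9 : cQ * (S3 m δ k h / L ^ 2) ≤ (c3 + cV + cQ) * (S3 m δ k h / L ^ 2) :=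
      mul_le_mul_of_nonneg_right (by linarith) (div_nonneg S3pos (by positivity))
    have hQQ : QQ m δ k h = ∑ a ∈ s, ∑ b ∈ s, ((mult m h a b : ℝ) * ((mult m h a b : ℝ) - 1)) *
      (wt m δ h k a * wt m δ h k b) := rfl
    rw [hQQ]
    linarith [e2]

end Pool.Agent.H671.TA.P3
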